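import Pool.Agent.Helper87.VM.Lib2

/-! Module TAN: tangent vectors of a free quotient lift. -/

set_option autoImplicit false

namespace Pool.Agent.Helper87.VM

open MvPolynomial Pool.Agent.Helper48.VMRT

section TanA

variable {κ : Type}

/-- The coordinate ring. -/
abbrev tan_R (S : Set (κ → ℂ)) : Type := MvPolynomial κ ℂ ⧸ vanishingIdeal ℂ S

/-- Evaluation at a point of `S`. -/
noncomputable def tan_ev (S : Set (κ → ℂ)) (y : κ → ℂ) (hy : y ∈ S) : tan_R S →ₐ[ℂ] ℂ :=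
  Ideal.Quotient.liftₐ (vanishingIdeal ℂ S) (aeval y) (fun p hp => by
    rw [aeval_eq_eval]
    exact mem_vI.1 hp y hy)

theorem tan_ev_mk (S : Set (κ → ℂ)) (y : κ → ℂ) (hy : y ∈ S) (p : MvPolynomial κ ℂ) :
    tan_ev S y hy (Ideal.Quotient.mk _ p) = eval y p := by
  have h : tan_ev S y hy (Ideal.Quotient.mk _ p) = aeval y p := rfl
  rw [h, aeval_eq_eval]

theorem tan_ext (S : Set (κ → ℂ)) (r s : tan_R S)
    (h : ∀ y hy, tan_ev S y hy r = tan_ev S y hy s) : r = s := by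
  obtain ⟨p, rfl⟩ := Ideal.Quotient.mk_surjective r
  obtain ⟨q, rfl⟩ := Ideal.Quotient.mk_surjective s
  rw [Ideal.Quotient.eq, mem_vI]
  intro y hy
  have := h y hy
  rw [tan_ev_mk, tan_ev_mk] at this
  rw [map_sub, this, sub_self]

variable [Fintype κ]

/-- The endomorphism of the coordinate ring given by a linear map preserving `S`. -/
noncomputable def tan_map (S : Set (κ → ℂ)) (L : (κ → ℂ) →ₗ[ℂ] (κ → ℂ))
    (hL : ∀ y ∈ S, L y ∈ S) : tan_R S →ₐ[ℂ] tan_R S :=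
  Ideal.Quotient.liftₐ (vanishingIdeal ℂ S)
    ((Ideal.Quotient.mkₐ ℂ (vanishingIdeal ℂ S)).comp
      (aeval (fun j => linp ((LinearMap.proj j : (κ → ℂ) →ₗ[ℂ] ℂ).comp L)))) (fun p hp => by
    have h1 : pull L p ∈ vanishingIdeal ℂ S := by
      rw [mem_vI]
      intro y hy
      rw [eval_pull]
      exact mem_vI.1 hp _ (hL y hy)
    exact Ideal.Quotient.eq_zero_iff_mem.2 h1)

theorem tan_map_mk (S : Set (κ → ℂ)) (L : (κ → ℂ) →ₗ[ℂ] (κ → ℂ))
    (hL : ∀ y ∈ S, L y ∈ S) (p : MvPolynomial κ ℂ) :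
    tan_map S L hL (Ideal.Quotient.mk _ p) = Ideal.Quotient.mk _ (pull L p) := rfl

theorem tan_ev_map (S : Set (κ → ℂ)) (L : (κ → ℂ) →ₗ[ℂ] (κ → ℂ))
    (hL : ∀ y ∈ S, L y ∈ S) (y : κ → ℂ) (hy : y ∈ S) (r : tan_R S) :
    tan_ev S y hy (tan_map S L hL r) = tan_ev S (L y) (hL y hy) r := by
  obtain ⟨p, rfl⟩ := Ideal.Quotient.mk_surjective r
  rw [tan_map_mk, tan_ev_mk, tan_ev_mk, eval_pull]

theorem tan_lam (S : Set (κ → ℂ)) (lam : tan_R S →ₗ[ℂ] ℂ) (c : ℂ) (w : tan_R S) :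
    lam (algebraMap ℂ (tan_R S) c * w) = c * lam w := by
  have h : algebraMap ℂ (tan_R S) c * w = c • w := (Algebra.smul_def c w).symm
  exact (congrArg lam h).trans (lam.map_smul c w)

theorem tan_ev_alg (S : Set (κ → ℂ)) (y : κ → ℂ) (hy : y ∈ S) (c : ℂ) :
    tan_ev S y hy (algebraMap ℂ (tan_R S) c) = c := (tan_ev S y hy).commutes c

theorem tan_ev_congr (S : Set (κ → ℂ)) (y z : κ → ℂ) (hy : y ∈ S) (hz : z ∈ S) (h : y = z)
    (r : tan_R S) : tan_ev S y hy r = tan_ev S z hz r := by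
  subst h
  rfl

/-- A point derivation is a directional derivative. -/
theorem tan_der (S : Set (κ → ℂ)) (x : κ → ℂ) (hx : x ∈ S) (D : tan_R S →ₗ[ℂ] ℂ)
    (hD : ∀ r s, D (r * s) = tan_ev S x hx r * D s + tan_ev S x hx s * D r)
    (p : MvPolynomial κ ℂ) :
    D (Ideal.Quotient.mk _ p) = dpol p x (fun i => D (Ideal.Quotient.mk _ (X i))) := by
  have h1 : D 1 = 0 := by
    have h := hD 1 1
    have e1 : tan_ev S x hx 1 = 1 := map_one _
    rw [mul_one, e1, one_mul] at h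
    have h2 : D 1 + 0 = D 1 + D 1 := by rw [add_zero]; exact h
    exact (add_left_cancel h2).symm
  induction p using MvPolynomial.induction_on with
  | C a =>
    rw [dpol_C]
    have h2 : algebraMap ℂ (tan_R S) a = a • (1 : tan_R S) := Algebra.algebraMap_eq_smul_one a
    have h3 : D (Ideal.Quotient.mk _ (C a)) = a • D 1 :=
      (congrArg D h2).trans (D.map_smul a 1)
    rw [h3, h1, smul_zero]
  | add p q hp hq => rw [map_add, map_add, hp, hq, dpol_add]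
  | mul_X p i hp =>
    rw [map_mul, hD, hp, dpol_mul, dpol_X, tan_ev_mk, tan_ev_mk]

end TanA

section TanB

variable {G κ : Type} [Group G] [Fintype κ]

/-- The linear map attached to `(ζ, g)`. -/
noncomputable def tan_L (k : ℕ) (ρ : G →* ((κ → ℂ) →ₗ[ℂ] (κ → ℂ)))
    (h : rootsOfUnity k ℂ × G) : (κ → ℂ) →ₗ[ℂ] (κ → ℂ) :=
  ((h.1 : ℂˣ) : ℂ) • ρ h.2

theorem tan_L_apply (k : ℕ) (ρ : G →* ((κ → ℂ) →ₗ[ℂ] (κ → ℂ)))
    (h : rootsOfUnity k ℂ × G) (x : κ → ℂ) : tan_L k ρ h x = ((h.1 : ℂˣ) : ℂ) • ρ h.2 x := rfl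

theorem tan_L_mul (k : ℕ) (ρ : G →* ((κ → ℂ) →ₗ[ℂ] (κ → ℂ)))
    (h h' : rootsOfUnity k ℂ × G) (x : κ → ℂ) :
    tan_L k ρ (h * h') x = tan_L k ρ h (tan_L k ρ h' x) := by
  rw [tan_L_apply, tan_L_apply, tan_L_apply, map_smul, smul_smul, Prod.snd_mul, map_mul]
  rfl

theorem tan_L_one (k : ℕ) (ρ : G →* ((κ → ℂ) →ₗ[ℂ] (κ → ℂ))) (x : κ → ℂ) :
    tan_L k ρ 1 x = x := by
  rw [tan_L_apply]
  simp

theorem tan_L_mem (k : ℕ) (ρ : G →* ((κ → ℂ) →ₗ[ℂ] (κ → ℂ))) (S : Set (κ → ℂ))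
    (hc : ∀ a : ℂ, ∀ x ∈ S, a • x ∈ S) (hf : FreeAct ρ S) (h : rootsOfUnity k ℂ × G) :
    ∀ y ∈ S, tan_L k ρ h y ∈ S := fun y hy => hc _ _ (hf.1 h.2 y hy)

/-- The action on the coordinate ring. -/
noncomputable def tan_th (k : ℕ) (ρ : G →* ((κ → ℂ) →ₗ[ℂ] (κ → ℂ))) (S : Set (κ → ℂ))
    (hc : ∀ a : ℂ, ∀ x ∈ S, a • x ∈ S) (hf : FreeAct ρ S) :
    (rootsOfUnity k ℂ × G) →* (tan_R S →ₐ[ℂ] tan_R S) where
  toFun h := tan_map S (tan_L k ρ h⁻¹) (tan_L_mem k ρ S hc hf h⁻¹)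
  map_one' := by
    refine AlgHom.ext fun r => tan_ext S _ _ fun y hy => ?_
    rw [tan_ev_map]
    refine tan_ev_congr S _ _ _ _ ?_ _
    rw [inv_one]
    exact tan_L_one k ρ y
  map_mul' h h' := by
    refine AlgHom.ext fun r => tan_ext S _ _ fun y hy => ?_
    have e : (tan_map S (tan_L k ρ h⁻¹) (tan_L_mem k ρ S hc hf h⁻¹) *
        tan_map S (tan_L k ρ h'⁻¹) (tan_L_mem k ρ S hc hf h'⁻¹)) r =
        tan_map S (tan_L k ρ h⁻¹) (tan_L_mem k ρ S hc hf h⁻¹)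
          (tan_map S (tan_L k ρ h'⁻¹) (tan_L_mem k ρ S hc hf h'⁻¹) r) := rfl
    rw [e, tan_ev_map, tan_ev_map, tan_ev_map]
    refine tan_ev_congr S _ _ _ _ ?_ _
    rw [mul_inv_rev, tan_L_mul]

/-- The action on the coordinate ring by automorphisms. -/
noncomputable def tan_Th (k : ℕ) (ρ : G →* ((κ → ℂ) →ₗ[ℂ] (κ → ℂ))) (S : Set (κ → ℂ))
    (hc : ∀ a : ℂ, ∀ x ∈ S, a • x ∈ S) (hf : FreeAct ρ S) :
    (rootsOfUnity k ℂ × G) →* (tan_R S ≃ₐ[ℂ] tan_R S) :=
  (AlgEquiv.algHomUnitsEquiv ℂ (tan_R S)).toMonoidHom.comp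
    (MonoidHom.toHomUnits (tan_th k ρ S hc hf))

theorem tan_Th_apply (k : ℕ) (ρ : G →* ((κ → ℂ) →ₗ[ℂ] (κ → ℂ))) (S : Set (κ → ℂ))
    (hc : ∀ a : ℂ, ∀ x ∈ S, a • x ∈ S) (hf : FreeAct ρ S) (h : rootsOfUnity k ℂ × G)
    (r : tan_R S) : tan_Th k ρ S hc hf h r =
      tan_map S (tan_L k ρ h⁻¹) (tan_L_mem k ρ S hc hf h⁻¹) r := rfl

theorem tan_ev_Th (k : ℕ) (ρ : G →* ((κ → ℂ) →ₗ[ℂ] (κ → ℂ))) (S : Set (κ → ℂ))
    (hc : ∀ a : ℂ, ∀ x ∈ S, a • x ∈ S) (hf : FreeAct ρ S) (h : rootsOfUnity k ℂ × G)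
    (y : κ → ℂ) (hy : y ∈ S) (r : tan_R S) :
    tan_ev S y hy (tan_Th k ρ S hc hf h r) =
      tan_ev S (tan_L k ρ h⁻¹ y) (tan_L_mem k ρ S hc hf h⁻¹ y hy) r := by
  rw [tan_Th_apply, tan_ev_map]

end TanB

/-- The values of elements of the span. -/
theorem tan_span {κ μ : Type} (f : μ → MvPolynomial κ ℂ) (x y : κ → ℂ) (h : ev f y = ev f x)
    (p : MvPolynomial κ ℂ) (hp : p ∈ Submodule.span ℂ (Set.range f)) : eval y p = eval x p := by
  induction hp using Submodule.span_induction with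
  | mem p hp =>
    obtain ⟨i, rfl⟩ := hp
    exact congrFun h i
  | zero => simp
  | add p q _ _ hp hq => rw [map_add, map_add, hp, hq]
  | smul a p _ hp => rw [smul_eval, smul_eval, hp]

theorem tan_span_aeval {κ μ : Type} (f : μ → MvPolynomial κ ℂ)
    (p : MvPolynomial κ ℂ) (hp : p ∈ Submodule.span ℂ (Set.range f)) :
    ∃ q : MvPolynomial μ ℂ, aeval f q = p := by
  induction hp using Submodule.span_induction with
  | mem p hp =>
    obtain ⟨i, rfl⟩ := hp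
    exact ⟨X i, aeval_X f i⟩
  | zero => exact ⟨0, map_zero _⟩
  | add p q _ _ hp hq =>
    obtain ⟨a, ha⟩ := hp
    obtain ⟨b, hb⟩ := hq
    exact ⟨a + b, by rw [map_add, ha, hb]⟩
  | smul a p _ hp =>
    obtain ⟨b, hb⟩ := hp
    exact ⟨a • b, by rw [map_smul, hb]⟩

theorem tan_ev_zero {κ μ : Type} (f : μ → MvPolynomial κ ℂ) (k : ℕ) (hk : 1 ≤ k)
    (hf : ∀ i, HomE k (f i)) : ev f 0 = 0 := by
  funext i
  have h := hf i 0 0
  rw [zero_smul, zero_pow (by omega), zero_mul] at h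
  exact h

theorem st_TAN (hB : ST_BUMP) (hF : ST_FIN) (hA : ST_ALG) : ST_TAN := by
  intro G κ μ _ _ _ _ ρ S k f hS hc hfree hk hkG hhom hinv hspan x hx hx0 v hv
  obtain ⟨hb1, hb2, hb3⟩ := hB G κ ρ S k hfree hk hkG
  have : NeZero k := ⟨by omega⟩
  -- nonvanishing
  have hne : ∀ y ∈ S, ev f y = 0 → y = 0 := by
    intro y hy h0
    by_contra hy0
    obtain ⟨p, hp1, hp2, hp3⟩ := hb1 y hy hy0
    apply hp3
    have h1 := tan_span f 0 y (by rw [tan_ev_zero f k hk hhom, h0]) p (hspan p hp1 hp2)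
    have h2 := hp1 0 0
    rw [zero_smul, zero_pow (by omega), zero_mul] at h2
    rw [h1, h2]
  have hfin := hF κ μ S k f hk hS hc hhom hne
  -- the small ring
  let F : MvPolynomial μ ℂ →ₐ[ℂ] tan_R S :=
    (Ideal.Quotient.mkₐ ℂ (vanishingIdeal ℂ S)).comp (aeval f)
  let A : Subalgebra ℂ (tan_R S) := F.range
  have hFA : ∀ q, F q ∈ A := fun q => ⟨q, rfl⟩
  have hFmk : ∀ q, F q = Ideal.Quotient.mk _ (aeval f q) := fun q => rfl
  have hFev : ∀ (y : κ → ℂ) (hy : y ∈ S) q, tan_ev S y hy (F q) = eval (ev f y) q := by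
    intro y hy q
    rw [hFmk, tan_ev_mk, eval_aeval]
  have hNoe : IsNoetherianRing A := AlgHom.isNoetherianRing_range F
  have hMF : Module.Finite A (tan_R S) := by
    have h1 : ((algebraMap A (tan_R S)).comp (F.rangeRestrict : MvPolynomial μ ℂ →+* A)).Finite :=
      hfin
    have h2 := RingHom.Finite.of_comp_finite h1
    exact RingHom.finite_algebraMap.1 h2
  let Γ : Subgroup (tan_R S ≃ₐ[ℂ] tan_R S) := (tan_Th k ρ S hc hfree).range
  have hΓ : Finite Γ := by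
    have : Finite (rootsOfUnity k ℂ × G) := inferInstance
    exact Set.finite_range (tan_Th k ρ S hc hfree)
  let φ : tan_R S →ₐ[ℂ] ℂ := tan_ev S x hx
  have hζ : ∀ ζ : rootsOfUnity k ℂ, (((ζ : ℂˣ) : ℂ)) ^ k = 1 := by
    intro ζ
    have h1 := ζ.2
    rw [mem_rootsOfUnity'] at h1
    exact h1
  have hevL : ∀ (h : rootsOfUnity k ℂ × G) (y : κ → ℂ), ev f (tan_L k ρ h y) = ev f y := by
    intro h y
    funext i
    show eval _ (f i) = eval _ (f i)
    rw [tan_L_apply, hhom i, hζ, one_mul, hinv i]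
  -- H0
  have H0 : ∀ γ ∈ Γ, ∀ a ∈ A, γ a = a := by
    rintro _ ⟨h, rfl⟩ _ ⟨q, rfl⟩
    refine tan_ext S _ _ fun y hy => ?_
    rw [tan_ev_Th]
    exact (hFev _ _ q).trans ((congrArg (fun z => eval z q) (hevL h⁻¹ y)).trans
      (hFev _ _ q).symm)
  -- H1
  have H1 : ∀ ψ : tan_R S →ₐ[ℂ] ℂ, (∀ a ∈ A, ψ a = φ a) → ∃ γ ∈ Γ, ∀ r, ψ r = φ (γ r) := by
    intro ψ hψ
    let y : κ → ℂ := fun i => ψ (Ideal.Quotient.mk _ (X i))
    have hy1 : ∀ p, ψ (Ideal.Quotient.mk _ p) = eval y p := by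
      intro p
      have e : (ψ.comp (Ideal.Quotient.mkₐ ℂ (vanishingIdeal ℂ S))) = aeval y := by
        apply MvPolynomial.algHom_ext
        intro i
        rw [aeval_X]
        rfl
      have h1 := congrArg (fun χ : MvPolynomial κ ℂ →ₐ[ℂ] ℂ => χ p) e
      rw [← aeval_eq_eval]
      exact h1
    have hyS : y ∈ S := by
      refine zclosed_iff.1 hS y fun p hp => ?_
      rw [← hy1, Ideal.Quotient.eq_zero_iff_mem.2 hp, map_zero]
    have hevy : ev f y = ev f x := by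
      funext i
      have h1 := hψ (F (X i)) (hFA _)
      have h2 : F (X i) = Ideal.Quotient.mk _ (f i) := by
        rw [hFmk, aeval_X]
      rw [h2, hy1] at h1
      have h3 : φ (Ideal.Quotient.mk _ (f i)) = eval x (f i) := tan_ev_mk S x hx (f i)
      rw [h3] at h1
      exact h1
    have hfx : ev f x ≠ 0 := fun h => hx0 (hne x hx h)
    have hy0 : y ≠ 0 := by
      intro h
      apply hfx
      rw [← hevy, h, tan_ev_zero f k hk hhom]
    have hex : ∃ (g : G) (c : ℂ), x = c • ρ g y := by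
      by_contra hcon
      push Not at hcon
      obtain ⟨p, hp1, hp2, hp3, hp4⟩ := hb2 x hx hx0 y hyS hy0 hcon
      apply hp3
      rw [← tan_span f x y hevy p (hspan p hp1 hp2), hp4]
    obtain ⟨g, c, hxy⟩ := hex
    obtain ⟨i, hi⟩ := Function.ne_iff.1 hfx
    have hck : c ^ k = 1 := by
      have h1 : eval x (f i) = c ^ k * eval y (f i) := by
        conv_lhs => rw [hxy]
        rw [hhom i, hinv i]
      have h2 : eval y (f i) = eval x (f i) := congrFun hevy i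
      rw [h2] at h1
      have h3 : eval x (f i) ≠ 0 := hi
      have h4 : 1 * eval x (f i) = c ^ k * eval x (f i) := by rw [one_mul]; exact h1
      exact (mul_right_cancel₀ h3 h4).symm
    have hc0 : c ≠ 0 := by
      intro h
      rw [h, zero_pow (by omega)] at hck
      exact zero_ne_one hck
    let ζ : rootsOfUnity k ℂ := ⟨Units.mk0 c hc0, by
      rw [mem_rootsOfUnity']
      exact hck⟩
    have hLy : tan_L k ρ (ζ, g) y = x := by
      rw [tan_L_apply]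
      exact hxy.symm
    have hLx : tan_L k ρ (ζ, g)⁻¹ x = y := by
      rw [← hLy, ← tan_L_mul, inv_mul_cancel, tan_L_one]
    refine ⟨tan_Th k ρ S hc hfree (ζ, g), ⟨(ζ, g), rfl⟩, fun r => ?_⟩
    have h1 : φ (tan_Th k ρ S hc hfree (ζ, g) r) =
        tan_ev S (tan_L k ρ (ζ, g)⁻¹ x) (tan_L_mem k ρ S hc hfree (ζ, g)⁻¹ x hx) r :=
      tan_ev_Th k ρ S hc hfree (ζ, g) x hx r
    rw [h1, tan_ev_congr S _ y _ hyS hLx r]
    obtain ⟨p, rfl⟩ := Ideal.Quotient.mk_surjective r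
    rw [hy1, tan_ev_mk]
  -- H2
  have H2 : ∀ γ ∈ Γ, (∀ r, φ (γ r) = φ r) → γ = 1 := by
    rintro _ ⟨h, rfl⟩ hr
    have hLx : tan_L k ρ h⁻¹ x = x := by
      funext i
      have h1 := hr (Ideal.Quotient.mk _ (X i))
      have h2 : φ (tan_Th k ρ S hc hfree h (Ideal.Quotient.mk _ (X i))) =
          tan_ev S (tan_L k ρ h⁻¹ x) (tan_L_mem k ρ S hc hfree h⁻¹ x hx)
            (Ideal.Quotient.mk _ (X i)) :=
        tan_ev_Th k ρ S hc hfree h x hx _
      rw [h2, tan_ev_mk, eval_X] at h1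
      have h3 : φ (Ideal.Quotient.mk _ (X i)) = eval x (X i) := tan_ev_mk S x hx _
      rw [h3, eval_X] at h1
      exact h1
    rw [tan_L_apply] at hLx
    have hz0 : (((h⁻¹).1 : ℂˣ) : ℂ) ≠ 0 := Units.ne_zero _
    have hg1 : (h⁻¹).2 = 1 := by
      by_contra hg
      refine hfree.2 (h⁻¹).2 hg x hx hx0 (((h⁻¹).1 : ℂˣ) : ℂ)⁻¹ ?_
      rw [eq_inv_smul_iff₀ hz0]
      exact hLx
    rw [hg1, map_one] at hLx
    have hz1 : (((h⁻¹).1 : ℂˣ) : ℂ) = 1 := by
      obtain ⟨i, hi⟩ := Function.ne_iff.1 hx0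
      have h1 := congrFun hLx i
      have h2 : (((h⁻¹).1 : ℂˣ) : ℂ) * x i = 1 * x i := by rw [one_mul]; exact h1
      exact mul_right_cancel₀ hi h2
    have hh : h⁻¹ = 1 := by
      refine Prod.ext ?_ hg1
      apply Subtype.ext
      apply Units.ext
      exact hz1
    rw [inv_eq_one.1 hh, map_one]
  -- the point derivation attached to a functional
  have H3 : ∀ r, φ r = 0 → r ∈ Ideal.span {a : tan_R S | a ∈ A ∧ φ a = 0} ⊔
      (RingHom.ker φ) ^ 2 := by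
    intro r hr
    by_contra hcon
    let W : Submodule ℂ (tan_R S) :=
      (Ideal.span {a : tan_R S | a ∈ A ∧ φ a = 0} ⊔ (RingHom.ker φ) ^ 2).restrictScalars ℂ
    have hcW : r ∉ W := hcon
    obtain ⟨lam, hl1, hl2⟩ := Submodule.exists_le_ker_of_notMem hcW
    have hlW : ∀ w, w ∈ Ideal.span {a : tan_R S | a ∈ A ∧ φ a = 0} ⊔ (RingHom.ker φ) ^ 2 →
        lam w = 0 := fun w hw => hl2 hw
    let D : tan_R S →ₗ[ℂ] ℂ := lam - (lam 1) • φ.toLinearMap
    have hDa : ∀ s, D s = lam (s - algebraMap ℂ (tan_R S) (φ s)) := by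
      intro s
      have h1 := tan_lam S lam (φ s) 1
      rw [mul_one] at h1
      rw [map_sub, h1]
      show lam s - (lam 1) • φ s = lam s - φ s * lam 1
      rw [smul_eq_mul, mul_comm]
    have hk0 : ∀ s, φ (s - algebraMap ℂ (tan_R S) (φ s)) = 0 := by
      intro s
      rw [map_sub]
      have h1 : φ (algebraMap ℂ (tan_R S) (φ s)) = φ s := tan_ev_alg S x hx _
      rw [h1, sub_self]
    have hD : ∀ s t, D (s * t) = φ s * D t + φ t * D s := by
      intro s t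
      have h1 : (s - algebraMap ℂ (tan_R S) (φ s)) * (t - algebraMap ℂ (tan_R S) (φ t)) ∈
          (RingHom.ker φ) ^ 2 := by
        rw [pow_two]
        exact Ideal.mul_mem_mul (RingHom.mem_ker.2 (hk0 s)) (RingHom.mem_ker.2 (hk0 t))
      have h2 := hlW _ (Ideal.mem_sup_right h1)
      have h3 : s * t - algebraMap ℂ (tan_R S) (φ (s * t)) =
          (s - algebraMap ℂ (tan_R S) (φ s)) * (t - algebraMap ℂ (tan_R S) (φ t)) +
          (algebraMap ℂ (tan_R S) (φ s) * (t - algebraMap ℂ (tan_R S) (φ t)) +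
            algebraMap ℂ (tan_R S) (φ t) * (s - algebraMap ℂ (tan_R S) (φ s))) := by
        rw [map_mul, map_mul]
        ring
      rw [hDa, h3, map_add, h2, zero_add, map_add, tan_lam, tan_lam, ← hDa, ← hDa]
    have hu : (fun i => D (Ideal.Quotient.mk _ (X i))) = (0 : κ → ℂ) := by
      refine hb3 x hx hx0 _ fun p hp1 hp2 => ?_
      rw [← tan_der S x hx D hD p, hDa]
      refine hlW _ (Ideal.mem_sup_left (Ideal.subset_span ⟨?_, ?_⟩))
      · obtain ⟨q, hq⟩ := tan_span_aeval f p (hspan p hp1 hp2)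
        have h1 : Ideal.Quotient.mk (vanishingIdeal ℂ S) p = F q := by
          rw [hFmk, hq]
        rw [h1]
        exact A.sub_mem (hFA q) (A.algebraMap_mem _)
      · exact hk0 _
    apply hl1
    obtain ⟨p, rfl⟩ := Ideal.Quotient.mk_surjective r
    have h1 := tan_der S x hx D hD p
    rw [hu, dpol_zero_right, hDa, hr, map_zero, sub_zero] at h1
    exact h1
  -- the derivation on the small ring
  have hv' : ∀ q, q ∈ vanishingIdeal ℂ (ev f '' S) → dpol q (ev f x) v = 0 := hv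
  have hwd : ∀ p q, F p = F q → dpol p (ev f x) v = dpol q (ev f x) v := by
    intro p q hpq
    have h1 : p - q ∈ vanishingIdeal ℂ (ev f '' S) := by
      rw [vI_image, Ideal.mem_comap, map_sub]
      exact Ideal.Quotient.eq.1 hpq
    have h2 := hv' _ h1
    rw [dpol_sub] at h2
    exact sub_eq_zero.1 h2
  have hch : ∀ a : A, F a.2.choose = a := fun a => a.2.choose_spec
  let δ : A →ₗ[ℂ] ℂ :=
    { toFun := fun a => dpol a.2.choose (ev f x) v
      map_add' := fun a b => by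
        rw [← dpol_add]
        refine hwd _ _ ?_
        rw [map_add, hch, hch, hch]
        rfl
      map_smul' := fun c a => by
        rw [RingHom.id_apply, smul_eq_mul, ← dpol_smul]
        refine hwd _ _ ?_
        rw [map_smul, hch, hch]
        rfl }
  have hδ : ∀ (a : A) (q : MvPolynomial μ ℂ), F q = a → δ a = dpol q (ev f x) v := by
    intro a q hq
    refine hwd _ _ ?_
    rw [hch, hq]
  have hδmul : ∀ a b : A, δ (a * b) = φ a * δ b + φ b * δ a := by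
    intro a b
    obtain ⟨p, hp⟩ := a.2
    obtain ⟨q, hq⟩ := b.2
    have hp' : F p = a := hp
    have hq' : F q = b := hq
    have h1 : F (p * q) = ((a * b : A) : tan_R S) := by
      rw [map_mul, hp', hq']
      rfl
    rw [hδ (a * b) (p * q) h1, hδ a p hp', hδ b q hq', dpol_mul, ← hFev x hx, ← hFev x hx,
      hp', hq']
  obtain ⟨D, hD1, hD2⟩ := hA (tan_R S) A Γ φ δ hNoe hMF hΓ H0 H1 H2 H3 hδmul
  refine ⟨fun i => D (Ideal.Quotient.mk _ (X i)), fun p hp => ?_, ?_⟩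
  · rw [← tan_der S x hx D hD1 p, Ideal.Quotient.eq_zero_iff_mem.2 hp, map_zero]
  · funext i
    rw [dev_apply, ← tan_der S x hx D hD1 (f i)]
    have h1 : F (X i) = Ideal.Quotient.mk _ (f i) := by
      rw [hFmk, aeval_X]
    have h2 := hD2 ⟨F (X i), hFA _⟩
    rw [hδ ⟨F (X i), hFA _⟩ (X i) rfl, dpol_X] at h2
    rw [← h2]
    exact congrArg D h1.symm

end Pool.Agent.Helper87.VM
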